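import Pool.Agent.H43.CE.Main
import Pool.Agent.H43.CE.K.Add

/-!
# MP_7fe4b4_ag : a product formula for the Cohen-Macaulay type of Schubert varieties at the identity

Positions and values are numbered from `0`.  The big cell of `G/B` around the point `e_id` is
`U⁻ ≅ ℂ^(n(n-1)/2)`, the lower unitriangular matrices `lowerMat z`; the point `e_id` is `z = 0`.
The orbit `B e_v` meets it in `orbitChart v = {z | lowerMat z ∈ B v B}`.  Since the big cell is
open, the Schubert variety `X_v` (the closure of `B e_v`) meets it in the closure of `orbitChart v`;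
so `CoordRing v` is the coordinate ring of `X_v` (reduced) in the big cell, and its localization at
the ideal of the origin is the local ring of `X_v` at `e_id`.

The result: let `v = u w` be a length additive product of two permutations such that `X_u` and
`X_{w⁻¹}` are Gorenstein, with rank functions `h` and `g`, and let `N = h + g`.  Suppose that, on the
set `J` of the `k` for which neither `u` nor `w⁻¹` preserves `{0, ..., k}`, `N` does not increase
(`N(k+1) ≤ N(k)`), and that it decreases at such a `k` only if `u` preserves `{0, ..., k-1}`.  Then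
`t(v) = ∏_{k ∈ J} binom(N(k) - N(k+1) + d_k, d_k)` with `d_k = min(u(k), max_{p ≤ k} w⁻¹(p)) - k`.
-/

open MvPolynomial CategoryTheory Abelian

noncomputable section

namespace Pool.Agent.Results.MP_7fe4b4_ag.GorensteinProduct

variable {n : ℕ}

/-- strictly lower triangular positions `(row, column)` -/
abbrev LowPos (n : ℕ) : Type := {e : Fin n × Fin n // e.2 < e.1}

/-- the lower unitriangular matrix with entries `z` -/
def lowerMat (z : LowPos n → ℂ) : Matrix (Fin n) (Fin n) ℂ :=
  fun i j => if h : j < i then z ⟨(i, j), h⟩ else if i = j then 1 else 0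

/-- the permutation matrix of `v`: its column `j` is the basis vector `e_{v(j)}` -/
def permMatrix (v : Equiv.Perm (Fin n)) : Matrix (Fin n) (Fin n) ℂ :=
  fun i j => if i = v j then 1 else 0

/-- `b` is an element of `B`: an invertible upper triangular matrix -/
def InB (b : Matrix (Fin n) (Fin n) ℂ) : Prop :=
  (∀ i j, j < i → b i j = 0) ∧ ∀ i, b i i ≠ 0

/-- the double coset `B v B` -/
def DoubleCoset (v : Equiv.Perm (Fin n)) : Set (Matrix (Fin n) (Fin n) ℂ) :=
  {M | ∃ b b' : Matrix (Fin n) (Fin n) ℂ, InB b ∧ InB b' ∧ M = b * permMatrix v * b'}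

/-- the part of the orbit `B e_v` in the big cell around `e_id` -/
def orbitChart (v : Equiv.Perm (Fin n)) : Set (LowPos n → ℂ) :=
  {z | lowerMat z ∈ DoubleCoset v}

/-- the coordinate ring of the Zariski closure of a set of points -/
abbrev RingOf (S : Set (LowPos n → ℂ)) : Type :=
  MvPolynomial (LowPos n) ℂ ⧸ vanishingIdeal ℂ S

/-- the ideal of `RingOf S` generated by the coordinates: the ideal of the origin -/
def originIdeal (S : Set (LowPos n → ℂ)) : Ideal (RingOf S) :=
  Ideal.span (Set.range fun e => Ideal.Quotient.mk (vanishingIdeal ℂ S) (X e))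

/-- the coordinate ring of the Schubert variety `X_v` in the big cell around `e_id` -/
abbrev CoordRing (v : Equiv.Perm (Fin n)) : Type := RingOf (orbitChart v)

/-- the number of inversions of `v`, which is the dimension of `X_v` -/
def inversions (v : Equiv.Perm (Fin n)) : ℕ :=
  (Finset.univ.filter fun p : Fin n × Fin n => p.1 < p.2 ∧ v p.2 < v p.1).card

/-- the local ring `O` has dimension `d`, is Cohen-Macaulay and has Cohen-Macaulay type `t`: with
`k` the residue field, `Ext^i(k, O) = 0` for `i < d` and `Ext^d(k, O)` is isomorphic to `k^t` -/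
def HasCMType (O : Type) [CommRing O] [IsLocalRing O] (d t : ℕ) : Prop :=
  ringKrullDim O = d ∧
  (∀ i < d, Subsingleton (Ext (ModuleCat.of O (IsLocalRing.ResidueField O)) (ModuleCat.of O O) i)) ∧
  Nonempty (Ext (ModuleCat.of O (IsLocalRing.ResidueField O)) (ModuleCat.of O O) d ≃ₗ[O]
    (Fin t → IsLocalRing.ResidueField O))

/-- `t(v) = t`: the local ring of `X_v` at `e_id` (the localization of the coordinate ring of `X_v`
in the big cell at the ideal of the origin) has dimension `ℓ(v)`, is Cohen-Macaulay and has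
Cohen-Macaulay type `t` -/
def TypeAtIdentity (v : Equiv.Perm (Fin n)) (t : ℕ) : Prop :=
  ∃ _ : (originIdeal (orbitChart v)).IsPrime,
    HasCMType (Localization.AtPrime (originIdeal (orbitChart v))) (inversions v) t

/-- `h` is a rank function on the positions of `u`: it increases by one along every Bruhat cover
`u (a b) ⋖ u`, that is, for all positions `a < b` with `u(a) > u(b)` and no position `c` between
`a` and `b` with `u(a) > u(c) > u(b)` (such an `h` exists if and only if `X_u` is Gorenstein) -/
def IsRankFunction (u : Equiv.Perm (Fin n)) (h : Fin n → ℤ) : Prop :=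
  ∀ a b : Fin n, a < b → u b < u a → (∀ c, a < c → c < b → ¬ (u b < u c ∧ u c < u a)) →
    h b = h a + 1

theorem lowerMat_eq (z : LowPos n → ℂ) : lowerMat z = CMT.lowMat z := rfl

theorem doubleCoset_eq (v : Equiv.Perm (Fin n)) : DoubleCoset v = CMT.Cell v := rfl

theorem orbitChart_eq (v : Equiv.Perm (Fin n)) : orbitChart v = CMT.SS 1 v := by
  ext z
  have h1 : CMT.permMat ℂ (1 : Equiv.Perm (Fin n)) = 1 := by
    ext i j
    simp [CMT.permMat, Matrix.one_apply]
  show lowerMat z ∈ DoubleCoset v ↔ CMT.permMat ℂ 1 * CMT.lowMat z ∈ CMT.Cell v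
  rw [h1, one_mul, lowerMat_eq, doubleCoset_eq]

theorem of_hasType_aux (v : Equiv.Perm (Fin n)) (t : ℕ)
    (h : CMT.HasType (CMT.SchubertLocalRing v) (CMT.len v) t) (S : Set (LowPos n → ℂ))
    (hS : CMT.SS 1 v = S) : ∃ _ : (originIdeal S).IsPrime,
      HasCMType (Localization.AtPrime (originIdeal S)) (inversions v) t := by
  subst hS
  exact ⟨CMT.orig_isPrime v, h⟩

theorem of_hasType (v : Equiv.Perm (Fin n)) (t : ℕ)
    (h : CMT.HasType (CMT.SchubertLocalRing v) (CMT.len v) t) : TypeAtIdentity v t :=
  of_hasType_aux v t h _ (orbitChart_eq v).symm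

/-- the permutation `y` does not preserve `{0, ..., k}`: some `j ≤ k` has `y(j) > k` -/
def Crosses (y : Equiv.Perm (Fin n)) (k : Fin n) : Prop := ∃ j, j ≤ k ∧ k < y j

/-- the set `J` of all `k` such that neither `u` nor `w⁻¹` preserves `{0, ..., k}` -/
def crossingSet (u w : Equiv.Perm (Fin n)) : Finset (Fin n) :=
  @Finset.filter _ (fun k => Crosses u k ∧ Crosses w⁻¹ k) (Classical.decPred _) Finset.univ

/-- the drop `N(k) - N(k+1)` of `N` at `k` (as a natural number, `0` if it is negative or `k` is the
last position) -/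
def drop (N : Fin n → ℤ) (k : Fin n) : ℕ :=
  if hk : k.val + 1 < n then (N k - N ⟨k.val + 1, hk⟩).toNat else 0

/-- the maximum of the values `y(p)`, `p ≤ k` -/
def prefixMax (y : Equiv.Perm (Fin n)) (k : Fin n) : ℕ :=
  (Finset.univ.filter fun p : Fin n => p ≤ k).sup fun p => (y p).val

/-- the number `d_k = min(u(k), max_{p ≤ k} w⁻¹(p)) - k` -/
def width (u w : Equiv.Perm (Fin n)) (k : Fin n) : ℕ :=
  min (u k).val (prefixMax w⁻¹ k) - k.val

/-- the value of the formula: the product over `k ∈ J` of `binom(N(k) - N(k+1) + d_k, d_k)` -/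
def productValue (u w : Equiv.Perm (Fin n)) (N : Fin n → ℤ) : ℕ :=
  ∏ k ∈ crossingSet u w, (drop N k + width u w k).choose (width u w k)

/-- Let `v₀ = u w` with `ℓ(v₀) = ℓ(u) + ℓ(w)`, let `h` and `g` be rank functions of `u` and of `w⁻¹`,
and `N = h + g`.  Suppose that for all `k` such that neither `u` nor `w⁻¹` preserves `{0, ..., k}`:
`N(k+1) ≤ N(k)`, and if `N(k+1) < N(k)` then `u` preserves `{0, ..., k-1}`.  Then
`t(v) = ∏_{k ∈ J} binom(N(k) - N(k+1) + d_k, d_k)` for `v = v₀` and for its images under the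
symmetries `v₀⁻¹`, `w₀ v₀ w₀`, `w₀ v₀⁻¹ w₀` (`w₀ = Fin.revPerm`). -/
theorem result (n : ℕ) (u w : Equiv.Perm (Fin n)) (h g : Fin n → ℤ)
    (hlen : inversions (u * w) = inversions u + inversions w)
    (hu : IsRankFunction u h) (hw : IsRankFunction w⁻¹ g)
    (h1 : ∀ k k' : Fin n, k'.val = k.val + 1 → Crosses u k → Crosses w⁻¹ k →
      h k' + g k' ≤ h k + g k)
    (h2 : ∀ k k' : Fin n, k'.val = k.val + 1 → Crosses u k → Crosses w⁻¹ k →
      h k' + g k' < h k + g k → ∀ j, j < k → u j < k)
    (v : Equiv.Perm (Fin n))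
    (hv : v = u * w ∨ v = (u * w)⁻¹ ∨ v = Fin.revPerm * (u * w) * Fin.revPerm ∨
      v = Fin.revPerm * (u * w)⁻¹ * Fin.revPerm) :
    TypeAtIdentity v (productValue u w fun i => h i + g i) := by
  have H : CE.Hyp u w h g :=
    { ad := CE.ad_of_len hlen
      hu := hu
      hw := hw
      hJ1 := fun k hk hE hE' => h1 k ⟨k.val + 1, hk⟩ rfl hE hE'
      hJ2 := fun k hk hE hE' hlt => h2 k ⟨k.val + 1, hk⟩ rfl hE hE' hlt }
  rcases hv with rfl | rfl | rfl | rfl
  · exact of_hasType _ _ (CE.hasType_prod H)
  · exact of_hasType _ _ (CE.hasType_prod_inv H)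
  · exact of_hasType _ _ (CE.hasType_prod_rc H)
  · exact of_hasType _ _ (CE.hasType_prod_tau H)

end Pool.Agent.Results.MP_7fe4b4_ag.GorensteinProduct
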